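import Pool.Agent.Results.MP_72bf7f_co.SharpAsymptotics

/-!
# Schein rank of a random Boolean matrix: the error term

The asymptotic formula for the probability that a random Boolean matrix has Schein rank less than
`n` holds with a relative error `n ^ (- (1 - o(1)) log₂ n)`, smaller than every power of `1 / n`.
-/

set_option autoImplicit false

namespace Pool.Agent.Results.MP_72bf7f_co.ErrorTerm

open Finset Filter Topology H239Schein
open Pool.Agent.Results.MP_72bf7f_co.SharpAsymptotics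

theorem ratio_bound : ∃ D : ℕ, ∀ᶠ n : ℕ in atTop,
    |prob n / mainTerm n - 1| ≤ (n:ℝ) ^ D / Ef n := by
  obtain ⟨D, hU⟩ := upper_bound
  have h : ∀ᶠ m : ℕ in atTop, |prob (m + 1) / mainTerm (m + 1) - 1| ≤
      ((m + 1 : ℕ):ℝ) ^ (D + 3) / Ef (m + 1) := by
    filter_upwards [hU, lower_bound, eventually_ge_atTop 8] with m hU hL h8
    have hS0 : (0:ℝ) < spanPairs m (m + 1) := by exact_mod_cast spanPairs_pos m
    have hm0 : (8:ℝ) ≤ m := by exact_mod_cast h8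
    have hEf := Ef_pos m
    have hSE := spanPairs_Ef m
    have e1 : prob (m + 1) / mainTerm (m + 1) =
        (covCnt m : ℝ) / (2 * ((m:ℝ) + 1) * spanPairs m (m + 1)) := by
      rw [prob_succ, mainTerm_succ]
      have h1 : (2:ℝ) ^ ((m + 1) ^ 2) ≠ 0 := by positivity
      rw [div_div_div_cancel_right₀ h1]
    rw [e1]
    set S : ℝ := ((spanPairs m (m + 1) : ℕ) : ℝ) with hSdef
    set c : ℝ := ((covCnt m : ℕ) : ℝ) with hc
    have hU' : c ≤ 2 * ((m:ℝ) + 1) * S + ((m:ℝ) + 1) ^ D * 2 ^ (m * (m + 1)) := hU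
    have hL' : 2 * ((m:ℝ) + 1) * S ≤ c + 8 * ((m:ℝ) + 1) ^ 2 * 2 ^ (m * (m + 1)) := hL
    have hG : (0:ℝ) < 2 ^ (m * (m + 1)) := by positivity
    set G : ℝ := 2 ^ (m * (m + 1)) with hGdef
    have h9 : ((m:ℝ) + 1) ^ D ≤ ((m:ℝ) + 1) ^ (D + 3) :=
      pow_le_pow_right₀ (by linarith) (by omega)
    have h10 : 8 * ((m:ℝ) + 1) ^ 2 ≤ ((m:ℝ) + 1) ^ (D + 3) := by
      calc 8 * ((m:ℝ) + 1) ^ 2 ≤ ((m:ℝ) + 1) * ((m:ℝ) + 1) ^ 2 := by gcongr; linarith
        _ = ((m:ℝ) + 1) ^ 3 := by ring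
        _ ≤ ((m:ℝ) + 1) ^ (D + 3) := pow_le_pow_right₀ (by linarith) (by omega)
    have h11 : |c - 2 * ((m:ℝ) + 1) * S| ≤ ((m:ℝ) + 1) ^ (D + 3) * G := by
      rw [abs_le]
      constructor
      · have : 8 * ((m:ℝ) + 1) ^ 2 * G ≤ ((m:ℝ) + 1) ^ (D + 3) * G := by gcongr
        linarith
      · have : ((m:ℝ) + 1) ^ D * G ≤ ((m:ℝ) + 1) ^ (D + 3) * G := by gcongr
        linarith
    have h12 : 0 < 2 * ((m:ℝ) + 1) * S := by positivity
    have h13 : c / (2 * ((m:ℝ) + 1) * S) - 1 =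
        (c - 2 * ((m:ℝ) + 1) * S) / (2 * ((m:ℝ) + 1) * S) := by
      field_simp
    rw [h13, abs_div, abs_of_pos h12, div_le_div_iff₀ h12 hEf]
    push_cast
    calc |c - 2 * ((m:ℝ) + 1) * S| * Ef (m + 1) ≤ (((m:ℝ) + 1) ^ (D + 3) * G) * Ef (m + 1) := by
          gcongr
      _ = ((m:ℝ) + 1) ^ (D + 3) * S := by rw [hSE]; ring
      _ ≤ ((m:ℝ) + 1) ^ (D + 3) * (2 * ((m:ℝ) + 1) * S) := by
          apply mul_le_mul_of_nonneg_left _ (by positivity)
          nlinarith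
  obtain ⟨N, hN⟩ := eventually_atTop.1 h
  refine ⟨D + 3, eventually_atTop.2 ⟨N + 1, fun n hn => ?_⟩⟩
  obtain ⟨m, rfl⟩ : ∃ m, n = m + 1 := ⟨n - 1, by omega⟩
  exact hN m (by omega)

theorem error_bound : ∃ C : ℝ, ∀ᶠ n : ℕ in atTop, |prob n / mainTerm n - 1| ≤
    (2:ℝ) ^ (-(Real.logb 2 n) ^ 2 + C * Real.logb 2 n * Real.logb 2 (Real.logb 2 n)) := by
  obtain ⟨D, hD⟩ := ratio_bound
  refine ⟨D + 7, ?_⟩
  filter_upwards [hD, eventually_ge_atTop (2 ^ 16)] with n h1 hn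
  refine h1.trans ?_
  have hE1 := Ef_ge n hn
  have hn' : (2:ℝ) ^ 16 ≤ n := by exact_mod_cast hn
  have hn1 : 1 ≤ n := le_trans (by norm_num) hn
  obtain ⟨m, hm⟩ : ∃ m, n = m + 1 := ⟨n - 1, by omega⟩
  clear hn h1
  have hEp : 0 < Ef n := by rw [hm]; exact Ef_pos m
  have hn0 : (0:ℝ) < n := by exact_mod_cast hn1
  set L := Real.logb 2 n with hL
  have hL16 : 16 ≤ L := by
    rw [hL, Real.le_logb_iff_rpow_le (by norm_num) hn0]
    have : (2:ℝ) ^ (16:ℝ) = (2:ℝ) ^ 16 := by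
      rw [show (16:ℝ) = ((16:ℕ):ℝ) by norm_num, Real.rpow_natCast]
    rw [this]; exact hn'
  set M := Real.logb 2 L with hM
  have hM1 : 1 ≤ M := by
    rw [hM, Real.le_logb_iff_rpow_le (by norm_num) (by linarith)]
    rw [Real.rpow_one]; linarith
  have hE2 : (2:ℝ) ^ (L ^ 2 - 2 * L * M - 4 * L - 1) ≤ Ef n :=
    (Real.le_logb_iff_rpow_le (by norm_num) hEp).1 hE1
  have hnL : (n:ℝ) ^ D = (2:ℝ) ^ (D * L) := by
    rw [mul_comm, Real.rpow_mul (by norm_num), hL, Real.rpow_logb (by norm_num) (by norm_num) hn0,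
      Real.rpow_natCast]
  rw [div_le_iff₀ hEp]
  have hLM : L ≤ L * M := by nlinarith
  calc (n:ℝ) ^ D = (2:ℝ) ^ (D * L) := hnL
    _ ≤ (2:ℝ) ^ ((-L ^ 2 + (D + 7) * L * M) + (L ^ 2 - 2 * L * M - 4 * L - 1)) := by
        apply Real.rpow_le_rpow_of_exponent_le (by norm_num)
        have hD0 : (0:ℝ) ≤ D := by positivity
        have h2 : (D:ℝ) * L ≤ D * (L * M) := mul_le_mul_of_nonneg_left hLM hD0
        nlinarith
    _ = (2:ℝ) ^ (-L ^ 2 + (D + 7) * L * M) * (2:ℝ) ^ (L ^ 2 - 2 * L * M - 4 * L - 1) :=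
        Real.rpow_add (by norm_num) _ _
    _ ≤ (2:ℝ) ^ (-L ^ 2 + (D + 7) * L * M) * Ef n :=
        mul_le_mul_of_nonneg_left hE2 (by positivity)

/-- Let `p_n` be the probability that a uniformly random `n × n` Boolean matrix has Schein rank
less than `n`, and `f(n)` the explicit main term. (1) `p_n → 0`. (2) For some constant `C` and all
large `n`, `|p_n / f(n) - 1| ≤ 2 ^ (-(log₂ n)² + C log₂ n · log₂ log₂ n)`. (3) For every `A`,
`|p_n / f(n) - 1| ≤ n ^ (-A)` for all large `n`. (4) `log₂ p_n = - n + (log₂ n)² +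
O(log₂ n · log₂ log₂ n)`. -/
theorem result :
    Tendsto prob atTop (𝓝 0) ∧
    (∃ C : ℝ, ∀ᶠ n : ℕ in atTop, |prob n / mainTerm n - 1| ≤
      (2:ℝ) ^ (-(Real.logb 2 n) ^ 2 + C * Real.logb 2 n * Real.logb 2 (Real.logb 2 n))) ∧
    (∀ A : ℝ, ∀ᶠ n : ℕ in atTop, |prob n / mainTerm n - 1| ≤ (n:ℝ) ^ (-A)) ∧
    (fun n : ℕ => Real.logb 2 (prob n) + n - (Real.logb 2 n) ^ 2) =O[atTop]
      fun n : ℕ => Real.logb 2 n * Real.logb 2 (Real.logb 2 n) := by
  refine ⟨prob_tendsto, error_bound, fun A => ?_, log_prob⟩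
  obtain ⟨C, hC⟩ := error_bound
  -- `L ≥ A + C log₂ L` for all large `L`
  have hl : ∀ᶠ x : ℝ in atTop, A + |C| * Real.logb 2 x ≤ x := by
    have h1 : Tendsto (fun x : ℝ => Real.log x / x) atTop (𝓝 0) := by
      have := (Real.isLittleO_pow_log_id_atTop (n := 1)).tendsto_div_nhds_zero
      simpa using this
    have h2 := h1.const_mul (|C| / Real.log 2)
    rw [mul_zero] at h2
    filter_upwards [h2.eventually (gt_mem_nhds (show (0:ℝ) < 1/2 by norm_num)),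
      eventually_gt_atTop 0, eventually_ge_atTop (2 * A)] with x hx hx0 hxA
    have h3 : |C| * Real.logb 2 x ≤ x / 2 := by
      have h4 : |C| * Real.logb 2 x = (|C| / Real.log 2 * (Real.log x / x)) * x := by
        unfold Real.logb
        field_simp
      rw [h4]
      nlinarith
    linarith
  have hlog : Tendsto (fun n : ℕ => Real.logb 2 (n:ℝ)) atTop atTop :=
    (Real.tendsto_logb_atTop (by norm_num)).comp tendsto_natCast_atTop_atTop
  filter_upwards [hC, hlog.eventually hl, eventually_ge_atTop (2 ^ 2)] with n h1 h2 hn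
  refine h1.trans ?_
  have hn' : (2:ℝ) ^ 2 ≤ n := by exact_mod_cast hn
  have hn0 : (0:ℝ) < n := by linarith [show (0:ℝ) < 2 ^ 2 by norm_num]
  set L := Real.logb 2 n with hL
  have hL2 : 2 ≤ L := by
    rw [hL, Real.le_logb_iff_rpow_le (by norm_num) hn0]
    have : (2:ℝ) ^ (2:ℝ) = (2:ℝ) ^ 2 := by
      rw [show (2:ℝ) = ((2:ℕ):ℝ) by norm_num, Real.rpow_natCast]
    rw [this]; exact hn'
  have hM : 0 ≤ Real.logb 2 L := Real.logb_nonneg (by norm_num) (by linarith)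
  have e : (n:ℝ) ^ (-A) = (2:ℝ) ^ (L * (-A)) := by
    rw [Real.rpow_mul (by norm_num), hL, Real.rpow_logb (by norm_num) (by norm_num) hn0]
  rw [e]
  apply Real.rpow_le_rpow_of_exponent_le (by norm_num)
  have h3 : C * L * Real.logb 2 L ≤ |C| * Real.logb 2 L * L := by
    have h4 : C * (L * Real.logb 2 L) ≤ |C| * (L * Real.logb 2 L) :=
      mul_le_mul_of_nonneg_right (le_abs_self C) (by positivity)
    nlinarith
  nlinarith

end Pool.Agent.Results.MP_72bf7f_co.ErrorTerm
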